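import Mathlib
import Pool.Agent.P.MP_2feb70_lc.Main

namespace Pool.Agent.P.MP_2feb70_lc.Old.Heights

open CategoryTheory Pool.Agent.P.MP_2feb70_lc

/-- An ordinal is the height of an age `A` (of some relational similarity type) with `D(A)`
well-founded if and only if it is countable. -/
theorem result (α : Ordinal.{1}) :
    (∃ (L : FirstOrder.Language.{0, 0}) (_ : L.IsRelational)
      (A : Set (Bundled.{0} L.Structure)) (hA : IsAge L A)
      (_ : IsWellFounded (Subages L A) (Below L A)), height L A hA = α) ↔
    α < Ordinal.omega 1 := by
  constructor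
  · rintro ⟨L, _, A, hA, _, rfl⟩
    exact height_lt hA
  · intro h
    exact ⟨Lh, inferInstance, exists_height h⟩

end Pool.Agent.P.MP_2feb70_lc.Old.Heights
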